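import Mathlib

set_option autoImplicit false

namespace Pool.Agent.Results.MP_903317_co.Vega

open SimpleGraph

/-- The graph `G_k(p, q)`. -/
def Gk (p q : ℕ) : SimpleGraph (ZMod ((3 * p - 1) * q)) :=
  fromRel fun i j => ∃ n < p, (i - j).val ≡ 1 + 3 * n [MOD 3 * p - 1]

def M : ℕ := 0x7fb800007fb800007fb800038f8700038f8700038f870003f080f003f080f003f080f003f080f1fc007801fc007801fc00780e3c00470e3c00470e3c00470fc00040ffc00040ffc00040ffc00040fffc00400003ff800e038007ce038007ce038007c1c0703831c0703831c07038303c0f38003c0f38003c0f07003c0f070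

def G : SimpleGraph (Fin 32) where
  Adj x y := M.testBit (32 * x + y)
  symm := ⟨by decide +kernel⟩
  loopless := ⟨by decide +kernel⟩

instance : DecidableRel G.Adj := fun _ _ => inferInstanceAs (Decidable (_ = true))

instance : DecidableRel (Gk 11 1).Adj := fun _ _ => inferInstanceAs (Decidable (_ ∧ _))

theorem gG : G.girth = 4 := by
  let w : G.Walk 0 0 := .cons (v := 4) (by decide +kernel) (.cons (v := 1) (by decide +kernel)
    (.cons (v := 5) (by decide +kernel) (.cons (v := 0) (by decide +kernel) .nil)))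
  have hw : w.IsCycle := by
    rw [Walk.isCycle_def, Walk.isTrail_def]
    decide
  have h1 : G.girth ≤ 4 := girth_le_length hw
  have h2 : ¬ G.IsAcyclic := fun h => h w hw
  have h3 := three_le_girth h2
  obtain ⟨a, c, hc, e⟩ := exists_girth_eq_length.2 h2
  by_contra h
  obtain ⟨s, hs⟩ := is3Clique_iff_exists_cycle_length_three.2 ⟨a, c, hc, by omega⟩
  obtain ⟨x, y, z, p, q, r, -⟩ := is3Clique_iff.1 hs
  exact (by decide +kernel : ∀ x y, G.Adj x y → ∀ z, G.Adj x z → ¬ G.Adj y z) x y p z q r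

theorem dG : G.ediam = 2 := by
  refine le_antisymm (ediam_le_of_edist_le fun x y => ?_) (le_trans ?_ (edist_le_ediam (u := 0)
    (v := 1)))
  · obtain rfl | h | ⟨z, p, q⟩ :=
      (by decide +kernel : ∀ x y, x = y ∨ G.Adj x y ∨ ∃ z, G.Adj x z ∧ G.Adj z y) x y
    · simp
    · exact (edist_eq_one_iff_adj.2 h).trans_le one_le_two
    · exact edist_le (.cons p (.cons q .nil))
  · exact Order.add_one_le_of_lt (lt_of_le_of_ne (Order.one_le_iff_pos.2 (edist_pos_of_ne
      (by decide))) fun h => absurd (edist_eq_one_iff_adj.1 h.symm) (by decide +kernel))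

theorem result : ∃ k : ℕ, 5 ≤ k.minFac ∧ ∃ (V : Type) (_ : Fintype V) (G : SimpleGraph V),
    (∀ v, (G.neighborSet v).ncard = k) ∧ ¬ G.Colorable 2 ∧ G.ediam = 2 ∧ G.girth = 4 ∧
    Fintype.card V + k / k.minFac = 3 * k ∧ IsEmpty (G ≃g Gk k.minFac (k / k.minFac)) := by
  have e : Nat.minFac 11 = 11 := by norm_num
  refine ⟨11, e.ge.trans' (by norm_num), Fin 32, inferInstance, G, ?_, fun ⟨c⟩ => ?_, dG, gG,
    by rw [e]; rfl, ?_⟩
  · simp only [← coe_neighborFinset, Set.ncard_coe_finset]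
    decide +kernel
  · exact (by decide : ∀ a b c d e : Fin 2, a ≠ b → b ≠ c → c ≠ d → d ≠ e → e = a) _ _ _ _ _
      (c.valid (v := 0) (w := 4) (by decide +kernel)) (c.valid (w := 7) (by decide +kernel))
      (c.valid (w := 2) (by decide +kernel)) (c.valid (w := 12) (by decide +kernel)) |>
      c.valid (by decide +kernel)
  · rw [e]
    refine ⟨fun f => ?_⟩
    obtain ⟨w, h⟩ := (by decide +kernel : ∀ x y, x ≠ y → ∃ w, ¬ ((Gk 11 1).Adj x w ↔
      (Gk 11 1).Adj y w)) (f 0) (f 1) (f.injective.ne (by decide))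
    obtain ⟨w, rfl⟩ := f.surjective w
    rw [f.map_adj_iff, f.map_adj_iff] at h
    revert w
    decide +kernel

end Pool.Agent.Results.MP_903317_co.Vega
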